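import Pool.Agent.H995R3.Boards.Main

/-!
# The size of the continuum in the Cohen model
-/

namespace Pool.Agent.H995R3.Boards

open Cardinal Set Pool.Agent.Helper669.Forcing Pool.Agent.H458R4.Cohen

theorem continuumIs {κ : Cardinal.{0}} (hκ : ℵ₀ < κ) (hpow : κ ^ ℵ₀ = κ) (p : Fn κ.out) :
    p ∈ ContinuumIs (Fn κ.out) κ := by
  classical
  have hκ' : #κ.out = κ := mk_out κ
  refine ⟨continuumLe (by rw [hκ']; exact hκ) (by rw [hκ']; exact hpow) p, ?_⟩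
  intro μ hμ q _ hq
  obtain ⟨r, _, E, hE1, hE2⟩ := mem_fex.1 hq q le_rfl
  have hE : ∀ y, r ∈ IsFun (E y) := hE1
  let D : μ.out → List ℕ → Set (Fn κ.out) := fun j t =>
    {p | ∃ i < t.length, ∃ m, m ≠ t.getD i 0 ∧ p ∈ meets (E j i m)}
  have hD : ∀ j t, Down (D j t) := by
    rintro j t p ⟨i, hi, m, hm, h⟩ q hq
    exact ⟨i, hi, m, hm, down_meets _ _ h q hq⟩
  have hmd := meetsDense (ι := κ.out) (J := μ.out) (by rw [hκ']; exact hκ)
    (by rw [hκ', mk_out]; exact hμ) r D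
  have h1 : r ∈ fall fun j => fall fun s => fex fun t =>
      fand (fground (s <+: t)) (meets (D j t)) := by
    intro j s
    rw [mem_fex]
    intro q' hq'
    obtain ⟨q'', hq'', m, hm⟩ := (isFun_iff_val.1 (hE j) s.length).1 q' hq'
    refine ⟨q'', hq'', s ++ [m + 1], ⟨s.prefix_append _, meets_of_mem ?_⟩⟩
    refine ⟨s.length, by simp, m, ?_, hm⟩
    simp
  obtain ⟨r1, hr1, hr1'⟩ := fimp_mp hmd h1
  obtain ⟨r2, hr2, x, hx1, hx2⟩ := mem_fex.1 hr1' r1 le_rfl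
  have hr2r : r2 ≤ r := hr2.trans hr1
  obtain ⟨r3, hr3, hr3'⟩ := mem_fimp.1 (hE2 x) r2 hr2r hx1
  obtain ⟨r4, hr4, y, hy⟩ := mem_fex.1 hr3' r3 le_rfl
  obtain ⟨r5, hr5, t, ht1, ht2⟩ := mem_fex.1 (hx2 y) r4 (hr4.trans hr3)
  obtain ⟨r6, hr6, i, hi, m, hm, h6⟩ := exists_of_meets (hD y t) ht2
  have h7 : r6 ∈ meets (x i (t.getD i 0)) := down_meets _ _ (ht1 i hi) r6 hr6
  have h8 : r6 ∈ SameReal x (E y) := down_SameReal _ _ _ hy _ (hr6.trans hr5)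
  exact hm (SameReal.eq h8 h7 h6).symm

end Pool.Agent.H995R3.Boards
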