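import Mathlib
import Pool.Agent.H458R4.Cohen2

/-!
# Multiboard Gale-Stewart games in a forcing extension

The statements about the extension are expressed with the connectives of
`Pool.Agent.Helper669.Forcing`: a sentence is the set of the conditions which force it. A function
from `X` to `Y` of the extension (`X` and `Y` being ground model sets) is named by
`f : X → Y → Set P`, provided that it is forced to be a function, `p ∈ IsFun f`.
-/

namespace Pool.Agent.H995R3.Boards

open Cardinal Set Pool.Agent.Helper669.Forcing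

universe u v w

variable {P : Type u} [Preorder P] {K : Type v} {L : Type w}

/-- The functions named by `f` and `g` are equal. -/
def Same {X : Type v} {Y : Type w} (f g : X → Y → Set P) : Set P :=
  fall fun x => fall fun a => fall fun b =>
    fimp (fand (meets (f x a)) (meets (g x b))) (fground (a = b))

/-- A name for a set of functions from `X` to `Y`: it assigns to each name `z` of a function the
statement `z ∈ S`, which only depends on the function named by `z`. -/
structure SetName (P : Type u) [Preorder P] (X : Type v) (Y : Type w) where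
  /-- the conditions which force `z ∈ S` -/
  mem : (X → Y → Set P) → Set P
  down : ∀ z, Down (mem z)
  dense : ∀ z p, (∀ q ≤ p, ∃ r ≤ q, r ∈ mem z) → p ∈ mem z
  ext : ∀ z z' p, p ∈ IsFun z → p ∈ IsFun z' → p ∈ Same z z' → p ∈ mem z → p ∈ mem z'

/-- `F` names a function assigning to each finite sequence of moves of the opponent a move; a move
on the boards in `K` is a function from `K` to the set `L` of symbols. -/
def IsStrategy (F : (n : ℕ) → (Fin n → K → L → Set P) → K → L → Set P) : Set P :=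
  fall fun n => fall fun f : Fin n → K → L → Set P =>
    fand (fimp (fall fun i => IsFun (f i)) (IsFun (F n f)))
      (fall fun g : Fin n → K → L → Set P =>
        fimp (fand (fall fun i => IsFun (f i)) (fand (fall fun i => IsFun (g i))
          (fall fun i => Same (f i) (g i)))) (Same (F n f) (F n g)))

/-- The sequence of the symbols played on the board `α`, when ONE plays `x 0, x 1, …` and TWO
plays `y 0, y 1, …`. -/
def board (x y : ℕ → K → L → Set P) (α : K) : ℕ → L → Set P :=
  fun m => if m % 2 = 0 then x (m / 2) α else y (m / 2) α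

/-- In the extension, ONE has a winning strategy in the game `GS_L(S, K)`. -/
def OneWins (K : Type v) (S : SetName P ℕ L) : Set P :=
  fex fun F : (n : ℕ) → (Fin n → K → L → Set P) → K → L → Set P =>
    fand (IsStrategy F)
      (fall fun y : ℕ → K → L → Set P => fimp (fall fun n => IsFun (y n))
        (fex fun α : K => S.mem (board (fun n => F n fun i => y i) y α)))

/-- In the extension, TWO has a winning strategy in the game `GS_L(S, K)`. -/
def TwoWins (K : Type v) (S : SetName P ℕ L) : Set P :=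
  fex fun F : (n : ℕ) → (Fin n → K → L → Set P) → K → L → Set P =>
    fand (IsStrategy F)
      (fall fun x : ℕ → K → L → Set P => fimp (fall fun n => IsFun (x n))
        (fnot (fex fun α : K => S.mem (board x (fun n => F (n + 1) fun i => x i) α))))

/-- In the extension, the game `GS_L(S, K)` is undetermined. -/
def Undetermined (K : Type v) (S : SetName P ℕ L) : Set P :=
  fand (fnot (OneWins K S)) (fnot (TwoWins K S))

/-! ### Basic facts -/

section
variable {X : Type v} {Y : Type w}

theorem isFun_iff {f : X → Y → Set P} {p : P} : p ∈ IsFun f ↔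
    ∀ x, (∀ q ≤ p, ∃ r ≤ q, ∃ y, r ∈ meets (f x y)) ∧
      ∀ q ≤ p, ∀ y y', q ∈ meets (f x y) → q ∈ meets (f x y') → y = y' := by
  constructor
  · intro h x
    refine ⟨mem_fex.1 (h.1 x), fun q hq y y' h1 h2 => ?_⟩
    obtain ⟨r, _, hr⟩ := mem_fimp.1 (h.2 x y y') q hq ⟨h1, h2⟩
    exact hr
  · intro h
    exact ⟨fun x => mem_fex.2 (h x).1, fun x y y' => mem_fimp.2 fun q hq h1 =>
      ⟨q, le_rfl, (h x).2 q hq y y' h1.1 h1.2⟩⟩

theorem same_iff {f g : X → Y → Set P} {p : P} : p ∈ Same f g ↔
    ∀ x, ∀ q ≤ p, ∀ a b, q ∈ meets (f x a) → q ∈ meets (g x b) → a = b := by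
  constructor
  · intro h x q hq a b h1 h2
    obtain ⟨r, _, hr⟩ := mem_fimp.1 (h x a b) q hq ⟨h1, h2⟩
    exact hr
  · intro h x a b
    exact mem_fimp.2 fun q hq h1 => ⟨q, le_rfl, h x q hq a b h1.1 h1.2⟩

theorem down_Same (f g : X → Y → Set P) : Down (Same f g) :=
  down_fall fun _ => down_fall fun _ => down_fall fun _ => down_fimp _ _

theorem down_IsStrategy (F : (n : ℕ) → (Fin n → K → L → Set P) → K → L → Set P) :
    Down (IsStrategy F) :=
  down_fall fun _ => down_fall fun _ => down_fand (down_fimp _ _) (down_fall fun _ => down_fimp _ _)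

/-- statements forced below `p` at a dense set of conditions -/
theorem fimp_mp {φ ψ : Set P} {p : P} (h : p ∈ fimp φ ψ) (h' : p ∈ φ) : ∃ r ≤ p, r ∈ ψ :=
  mem_fimp.1 h p le_rfl h'

theorem fimp_isFun {φ : Set P} (hφ : Down φ) {f : X → Y → Set P} {p : P}
    (h : p ∈ fimp φ (IsFun f)) (h' : p ∈ φ) : p ∈ IsFun f := by
  rw [isFun_iff]
  intro x
  refine ⟨fun q hq => ?_, fun q hq y y' h1 h2 => ?_⟩
  · obtain ⟨r, hr, hr'⟩ := mem_fimp.1 h q hq (hφ _ h' _ hq)
    obtain ⟨s, hs, y, hy⟩ := (isFun_iff.1 hr' x).1 r le_rfl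
    exact ⟨s, hs.trans hr, y, hy⟩
  · obtain ⟨r, hr, hr'⟩ := mem_fimp.1 h q hq (hφ _ h' _ hq)
    exact (isFun_iff.1 hr' x).2 r le_rfl y y' (down_meets _ _ h1 _ hr) (down_meets _ _ h2 _ hr)

theorem fimp_same {φ : Set P} (hφ : Down φ) {f g : X → Y → Set P} {p : P}
    (h : p ∈ fimp φ (Same f g)) (h' : p ∈ φ) : p ∈ Same f g := by
  rw [same_iff]
  intro x q hq a b h1 h2
  obtain ⟨r, hr, hr'⟩ := mem_fimp.1 h q hq (hφ _ h' _ hq)
  exact same_iff.1 hr' x r le_rfl a b (down_meets _ _ h1 _ hr) (down_meets _ _ h2 _ hr)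

theorem strat_isFun {F : (n : ℕ) → (Fin n → K → L → Set P) → K → L → Set P} {p : P}
    (h : p ∈ IsStrategy F) (n : ℕ) (f : Fin n → K → L → Set P) (hf : ∀ i, p ∈ IsFun (f i)) :
    p ∈ IsFun (F n f) :=
  fimp_isFun (down_fall fun _ => down_IsFun _) (h n f).1 hf

theorem strat_same {F : (n : ℕ) → (Fin n → K → L → Set P) → K → L → Set P} {p : P}
    (h : p ∈ IsStrategy F) (n : ℕ) (f g : Fin n → K → L → Set P) (hf : ∀ i, p ∈ IsFun (f i))
    (hg : ∀ i, p ∈ IsFun (g i)) (hfg : ∀ i, p ∈ Same (f i) (g i)) :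
    p ∈ Same (F n f) (F n g) :=
  fimp_same (down_fand (down_fall fun _ => down_IsFun _)
    (down_fand (down_fall fun _ => down_IsFun _) (down_fall fun _ => down_Same _ _)))
    ((h n f).2 g) ⟨hf, hg, hfg⟩

/-- image of a name under a ground model function -/
def mapName {Z : Type*} (g : Y → Z) (f : X → Y → Set P) : X → Z → Set P :=
  fun x z => {p | ∃ y, g y = z ∧ p ∈ f x y}

theorem meets_mapName {Z : Type*} {g : Y → Z} {f : X → Y → Set P} {x : X} {z : Z} {p : P}
    (h : p ∈ meets (mapName g f x z)) : ∃ r ≤ p, ∃ y, g y = z ∧ r ∈ meets (f x y) := by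
  obtain ⟨r, hr, s, ⟨y, hy, hs⟩, hrs⟩ := h p le_rfl
  exact ⟨r, hr, y, hy, meets_of_le hs hrs⟩

theorem meets_mapName_of {Z : Type*} {g : Y → Z} {f : X → Y → Set P} {x : X} {y : Y} {p : P}
    (h : p ∈ meets (f x y)) : p ∈ meets (mapName g f x (g y)) := by
  intro q hq
  obtain ⟨r, hr, s, hs, hrs⟩ := h q hq
  exact ⟨r, hr, s, ⟨y, rfl, hs⟩, hrs⟩

theorem isFun_mapName {Z : Type w} (g : Y → Z) {f : X → Y → Set P} {p : P} (h : p ∈ IsFun f) :
    p ∈ IsFun (mapName g f) := by
  rw [isFun_iff] at h ⊢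
  intro x
  refine ⟨fun q hq => ?_, fun q hq z z' h1 h2 => ?_⟩
  · obtain ⟨r, hr, y, hy⟩ := (h x).1 q hq
    exact ⟨r, hr, g y, meets_mapName_of hy⟩
  · obtain ⟨r, hr, y, rfl, hy⟩ := meets_mapName h1
    obtain ⟨s, hs, y', rfl, hy'⟩ := meets_mapName (down_meets _ _ h2 r hr)
    rw [(h x).2 s (hs.trans (hr.trans hq)) y y' (down_meets _ _ hy s hs) hy']

theorem dense_fex {ι : Sort*} {φ : ι → Set P} {p : P} (h : ∀ q ≤ p, ∃ r ≤ q, r ∈ fex φ) :
    p ∈ fex φ := by
  rw [mem_fex]
  intro q hq
  obtain ⟨r, hr, hr'⟩ := h q hq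
  obtain ⟨s, hs, i, hi⟩ := mem_fex.1 hr' r le_rfl
  exact ⟨s, hs.trans hr, i, hi⟩

end

end Pool.Agent.H995R3.Boards
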