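import Pool.Agent.H995R3.Boards.Cont

/-!
# The alphabets
-/

namespace Pool.Agent.H995R3.Boards

open Cardinal Set Pool.Agent.Helper669.Forcing Pool.Agent.H458R4.Cohen

universe u v

theorem exists_payoff {κ : Cardinal.{0}} (hκ : ℵ₀ < κ) (hpow : κ ^ ℵ₀ = κ) {L : Type v}
    {a b : L} (hab : a ≠ b) :
    ∃ S : SetName (Fn κ.out) ℕ L, ∀ (p : Fn κ.out) (K : Type u), Nonempty K →
      p ∈ Undetermined K S := by
  classical
  have hκ' : #κ.out = κ := mk_out κ
  obtain ⟨τ, hτ, hτ'⟩ := exists_codes (ι := κ.out) (by rw [hκ']; exact hκ)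
    (by rw [hκ']; exact hpow)
  let e : Bool → L := fun x => if x then a else b
  let bit : L → Bool := fun l => decide (l = a)
  have hbe : ∀ x, bit (e x) = x := by
    intro x
    cases x
    · simp [e, bit, hab.symm]
    · simp [e, bit]
  exact ⟨payoff e bit τ, fun p K hK =>
    undetermined e bit hbe (by rw [hκ']; exact hκ) hτ hτ' p⟩

end Pool.Agent.H995R3.Boards
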